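import Mathlib
import Pool.Agent.L7h19.IT.Stm

/-!
# Project IK (helper19, MP_157626_nt): all moments of `2 ^ (rank - |ω(b) - ω(a² - 4 b)|)`

The kernels of the matrices of symbols are vector spaces `K` over `𝔽₂`, and
`|K| ^ r ≤ 2 ^ (r²) (1 + number of the linearly independent r-tuples in K)`.
-/

set_option autoImplicit false

namespace Pool.Agent.L7h19.IK

open Finset Polynomial Pool.Agent.W262.RK Pool.Agent.W307.RT Pool.Agent.L7h19.RP Pool.Agent.L7h19.IS
open Pool.Agent.L7h19.IT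
open Pool.Agent.L7h19.RP.AT (gm)

/-- the symbol `(q / p)` (if `τ`) or `(p / q)`, and `ε p` if `p = q` -/
def sy (τ : Bool) (ε : ℕ → ℤ) (p q : ℕ) : ℤ := if τ = true then lam ε p q else lam ε q p

/-- the divisors `e i` of `n` are independent modulo squares -/
def Idp (r n : ℕ) (e : Fin r → ℕ) : Prop := ∀ y : Fin r → ZMod 2, y ≠ 0 →
  ∃ p ∈ n.primeFactors, ∑ i, y i * (if p ∣ e i then 1 else 0) ≠ 0

instance (r n : ℕ) : DecidablePred (Idp r n) := fun e => by
  unfold Idp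
  infer_instance

/-- the sum over the independent `r`-tuples of divisors of `n` and all `r`-tuples of divisors of `m` -/
noncomputable def FR (τ : Bool) (ε : ℕ → ℤ) (r m n : ℕ) : ℝ :=
  (∑ e ∈ (Fintype.piFinset (fun _ : Fin r => n.divisors)).filter (Idp r n),
    ∑ d ∈ Fintype.piFinset (fun _ : Fin r => m.divisors),
      ∏ i, ∏ p ∈ (e i).primeFactors, ∏ q ∈ (d i).primeFactors, (sy τ ε p q : ℝ)) /
    2 ^ (r * n.primeFactors.card)

/-- **S_LA**: the pointwise bound. Let `NT ε m n` be the number of the `e ∣ n` with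
`∏_{p ∣ e} lam ε p q = 1` for all `q ∣ m`. Counting twice, `2 ^ ω(n) N3 ε m n = 2 ^ ω(m) NT ε m n`. If
`ω(m) ≥ ω(n)`, then `G3 E m n = NT (eE E) m n * N3 (eE' E) n m`, the numbers of elements of two
`𝔽₂`-spaces `K` of divisors of `n`, so `G3 ^ k ≤ |K₁| ^ (2 k) + |K₂| ^ (2 k)`,
`|K| ^ r ≤ 2 ^ (r²) (1 + Ind_r(K))` with the number `Ind_r(K)` of the linearly independent `r`-tuples
(`card_linearIndependent` of Mathlib; if `dim K < r` use `1`), and
`FR = 2 ^ (r (ω(m) - ω(n))) Ind_r(K) ≥ Ind_r(K)`: `FR true (eE E)` for the first, `FR false (eE' E)` for the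
second. The case `ω(m) < ω(n)` is the same with `m` and `n` exchanged. -/
def S_LA : Prop := ∀ (k m n : ℕ) (E : Finset ℕ), Squarefree m → Squarefree n →
  (0 ≤ FR true (eE E) (2 * k) m n ∧ 0 ≤ FR false (eE' E) (2 * k) m n ∧
    0 ≤ FR true (eE' E) (2 * k) n m ∧ 0 ≤ FR false (eE E) (2 * k) n m) ∧
  G3 E m n ^ k ≤ 4 ^ ((2 * k) ^ 2 + 1) * (1 + FR true (eE E) (2 * k) m n +
    FR false (eE' E) (2 * k) m n + FR true (eE' E) (2 * k) n m + FR false (eE E) (2 * k) n m)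

variable {J : Type} [Fintype J] [DecidableEq J]

/-- the labels `(j, (v, x), h)`: `v i = 1` if the prime divides `d i`, `x i = 1` if it divides `e i`,
`h` is arbitrary -/
abbrev Lab (J : Type) (r : ℕ) : Type := J × ((Fin r → ZMod 2) × (Fin r → ZMod 2)) × Bool

/-- the admissible labels -/
def vR (iB iC : J → Bool) (r : ℕ) (i : Lab J r) : Prop :=
  (i.2.1.1 ≠ 0 → iB i.1 = true) ∧ (i.2.1.2 ≠ 0 → iC i.1 = true) ∧ i.2.1.1 ⬝ᵥ i.2.1.2 = 0

instance (iB iC : J → Bool) (r : ℕ) : DecidablePred (vR iB iC r) := fun i => by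
  unfold vR
  infer_instance

/-- the symbols -/
def LR (τ : Bool) (r : ℕ) (i k : Lab J r) : Bool :=
  decide (i ≠ k) && (if τ = true then decide (i.2.1.1 ⬝ᵥ k.2.1.2 ≠ 0) else
    decide (i.2.1.2 ⬝ᵥ k.2.1.1 ≠ 0))

/-- the weights -/
noncomputable def wR (iC : J → Bool) (r : ℕ) (i : Lab J r) : ℝ :=
  if iC i.1 = true then 1 / (2 * 2 ^ r) else 1 / 2

/-- the condition on the support: all labels are admissible, and the `x` span `𝔽₂ ^ r` -/
def QR (iB iC : J → Bool) (r : ℕ) (U : Finset (Lab J r)) : Prop :=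
  (∀ i ∈ U, vR iB iC r i) ∧ ∀ y : Fin r → ZMod 2, y ≠ 0 → ∃ i ∈ U, y ⬝ᵥ i.2.1.2 ≠ 0

instance (iB iC : J → Bool) (r : ℕ) : DecidablePred (QR iB iC r) := fun U => by
  unfold QR
  infer_instance

/-- **S_EXP5**: the expansion of the average over the signs. Generalizes `S_EXP3`
(`Pool.Agent.L7h56.IT.s_EXP3`, `Pool/Agent/L7h56/IT/Exp3.lean`; `Pool/Agent/L7h65/IT/{Bas,Exp4}.lean`). The
average over the signs kills the terms with a prime for which the number of the `i` with `p ∣ d i`,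
`p ∣ e i` is odd (`v ⬝ᵥ x = 1`); for two primes with the same label the symbols cancel. -/
def S_EXP5 : Prop := ∀ (J : Type) [Fintype J] [DecidableEq J] (iB iC : J → Bool) (f : J → ℤ[X])
  (θ : ℕ → ℤ) (τ : Bool) (r c z y : ℕ), (∀ j, iB j = true ∨ iC j = true) →
  (∀ p, θ p = 1 ∨ θ p = -1) → 2 ≤ z → c < z →
  ∑ s ∈ Tup J z y, ((1 / 2) ^ (PW iB iC s).card * ∑ E ∈ (PW iB iC s).powerset,
      FR τ (fun p => eE E p * θ p) r (pP iB s) (pP iC s)) * ∏ j, gm (gaw (f j) 1 c) (s j) =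
  ∑ d ∈ (Tup (Lab J r) z y).filter (fun d => QR iB iC r (univ.filter (fun i => d i ≠ 1))),
    (∏ i : Lab J r, gm (gaw (f i.1) (wR iC r i) c) (d i)) * Sym (LR τ r) (fun _ => 1) d

/-- the average of the power of the majorant over the signs -/
noncomputable def AVK (k : ℕ) (iB iC : J → Bool) (s : J → ℕ) : ℝ :=
  (1 / 2) ^ (PW iB iC s).card * ∑ E ∈ (PW iB iC s).powerset, G3 E (pP iB s) (pP iC s) ^ k

/-- **S_AVK**: growth of the average (for `k = 1`: `S_AVS`, `Pool/Agent/L7h89/IT/Ava.lean`) -/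
def S_AVK : Prop := ∀ (J : Type) [Fintype J] [DecidableEq J] (iB iC : J → Bool) (k z y : ℕ)
  (s e : J → ℕ), (∀ j, iB j = true ∨ iC j = true) → 2 ≤ z → (fun j => s j * e j) ∈ Tup J z y →
  AVK k iB iC (fun j => s j * e j) ≤ (16 ^ k) ^ (∑ j, (e j).primeFactors.card) * AVK k iB iC s

end Pool.Agent.L7h19.IK
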