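import Mathlib
import Pool.Agent.L7h19.IS.Cat2
import Pool.Agent.L7h19.IK.Stm

/-!
# Project IK: the combinatorial lemma
-/

set_option autoImplicit false
set_option linter.unusedSectionVars false

namespace Pool.Agent.L7h19.IK

open Finset Pool.Agent.L7h19.IS

variable {J : Type} [Fintype J] [DecidableEq J] {r : ℕ}

/-- the symplectic form -/
def fo (r : ℕ) (s : (Fin r → ZMod 2) × (Fin r → ZMod 2)) :
    ((Fin r → ZMod 2) × (Fin r → ZMod 2)) →ₗ[ZMod 2] ZMod 2 where
  toFun t := t.1 ⬝ᵥ s.2 + t.2 ⬝ᵥ s.1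
  map_add' t t' := by
    rw [Prod.fst_add, Prod.snd_add, add_dotProduct, add_dotProduct]
    ring
  map_smul' a t := by
    rw [Prod.smul_fst, Prod.smul_snd, smul_dotProduct, smul_dotProduct, RingHom.id_apply, smul_add]

lemma fo_apply (s t : (Fin r → ZMod 2) × (Fin r → ZMod 2)) :
    fo r s t = t.1 ⬝ᵥ s.2 + t.2 ⬝ᵥ s.1 := rfl

lemma zm2 : ∀ a b : ZMod 2, (decide (a ≠ 0) = decide (b ≠ 0)) ↔ a + b = 0 := by decide

lemma LR_symm (τ : Bool) (i k : Lab J r) :
    (LR τ r i k = LR τ r k i) ↔ fo r k.2.1 i.2.1 = 0 := by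
  rw [fo_apply]
  by_cases h : i = k
  · subst h
    rw [dotProduct_comm i.2.1.2 i.2.1.1, CharTwo.add_self_eq_zero]
    simp
  · have h' : k ≠ i := fun e => h e.symm
    unfold LR
    rw [decide_eq_true h, decide_eq_true h', Bool.true_and, Bool.true_and]
    cases τ with
    | true =>
      rw [if_pos rfl, if_pos rfl, zm2, dotProduct_comm k.2.1.1 i.2.1.2]
    | false =>
      rw [if_neg (by decide), if_neg (by decide), zm2, dotProduct_comm k.2.1.2 i.2.1.1,
        add_comm]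

lemma LR_self (τ : Bool) (i : Lab J r) : LR τ r i i = false := by
  unfold LR
  simp

/-- **the combinatorial condition** -/
lemma combR (iB iC : J → Bool) (τ : Bool)
    (U S : Finset (Lab J r)) (hUS : Disjoint U S)
    (hU : ∀ i ∈ U, ∀ k ∈ U, LR τ r i k = LR τ r k i) (hQ : QR iB iC r (U ∪ S)) :
    (∑ i ∈ UL (LR τ r) U S, wR iC r i) ≤ Fintype.card J ∧
      (S.Nonempty → (∑ i ∈ UL (LR τ r) U S, wR iC r i) < Fintype.card J) := by
  classical
  obtain ⟨hval, hspan⟩ := hQ
  set W := UL (LR τ r) U S with hW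
  have hWm : ∀ e, e ∈ W ↔ e ∈ U ∧ ∀ k ∈ S, LR τ r e k = LR τ r k e := fun e => by
    rw [hW]
    unfold UL
    simp only [mem_filter]
  have hWU : ∀ e ∈ W, e ∈ U := fun e he => ((hWm e).1 he).1
  have hWH : ∀ e ∈ W, ∀ s ∈ U ∪ S, fo r s.2.1 e.2.1 = 0 := by
    intro e he s hs
    rw [← LR_symm τ]
    rcases mem_union.1 hs with h | h
    · exact hU e (hWU e he) s h
    · exact ((hWm e).1 he).2 s h
  have hWH' : ∀ e ∈ W, e ∈ U ∪ S := fun e he => mem_union_left _ (hWU e he)
  -- the space spanned by the vectors of `W`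
  set D : Submodule (ZMod 2) ((Fin r → ZMod 2) × (Fin r → ZMod 2)) :=
    Submodule.span (ZMod 2) {t | ∃ e ∈ W, e.2.1 = t} with hD
  have hWD : ∀ e ∈ W, e.2.1 ∈ D := fun e he => Submodule.subset_span ⟨e, he, rfl⟩
  have hDH : ∀ t ∈ D, ∀ s ∈ U ∪ S, fo r s.2.1 t = 0 := by
    intro t ht s hs
    have h1 : D ≤ LinearMap.ker (fo r s.2.1) := by
      rw [hD, Submodule.span_le]
      rintro t ⟨e, he, rfl⟩
      exact hWH e he s hs
    exact h1 ht
  have hfs : ∀ s t : (Fin r → ZMod 2) × (Fin r → ZMod 2), fo r s t = fo r t s := by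
    intro s t
    rw [fo_apply, fo_apply, dotProduct_comm t.1 s.2, dotProduct_comm t.2 s.1, add_comm]
  have hDD : ∀ t ∈ D, ∀ t' ∈ D, fo r t' t = 0 := by
    intro t ht t' ht'
    have h1 : D ≤ LinearMap.ker (fo r t') := by
      rw [hD, Submodule.span_le]
      rintro t ⟨e, he, rfl⟩
      have h2 := hDH t' ht' e (hWH' e he)
      rw [hfs] at h2
      exact h2
    exact h1 ht
  -- no vectors with `x = 0`
  have hD0 : ∀ t ∈ D, t.2 = 0 → t = 0 := by
    intro t ht ht2
    have h1 : t.1 = 0 := by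
      by_contra hne
      obtain ⟨i, hi, hi0⟩ := hspan t.1 hne
      have h2 := hDH t ht i hi
      rw [fo_apply, ht2, zero_dotProduct, add_zero] at h2
      exact hi0 h2
    exact Prod.ext h1 ht2
  have hinj : ∀ t ∈ D, ∀ t' ∈ D, t.2 = t'.2 → t = t' := by
    intro t ht t' ht' h
    have h1 := hD0 (t - t') (D.sub_mem ht ht') (by rw [Prod.snd_sub, h, sub_self])
    exact sub_eq_zero.1 h1
  set Df : Finset ((Fin r → ZMod 2) × (Fin r → ZMod 2)) := univ.filter (fun t => t ∈ D) with hDf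
  have hDfm : ∀ t, t ∈ Df ↔ t ∈ D := fun t => by rw [hDf]; simp
  have hcV : (univ : Finset (Fin r → ZMod 2)).card = 2 ^ r := by
    rw [card_univ]
    simp [ZMod.card]
  have hDc : Df.card ≤ 2 ^ r := by
    rw [← hcV]
    refine card_le_card_of_injOn (fun t => t.2) (fun _ _ => mem_coe.2 (mem_univ _)) ?_
    intro t ht t' ht' h
    exact hinj t ((hDfm t).1 (mem_coe.1 ht)) t' ((hDfm t').1 (mem_coe.1 ht')) h
  -- the fibres
  set c : J → Finset (((Fin r → ZMod 2) × (Fin r → ZMod 2)) × Bool) :=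
    fun j => univ.filter (fun x => (j, x) ∈ W) with hc
  have hcm : ∀ j x, x ∈ c j ↔ (j, x) ∈ W := fun j x => by
    rw [hc]
    simp
  set ω : J → ℝ := fun j => if iC j = true then 1 / (2 * 2 ^ r) else 1 / 2 with hω
  have hsum : (∑ i ∈ W, wR iC r i) = ∑ j, ω j * ((c j).card : ℝ) := by
    have e1 : (∑ i ∈ W, wR iC r i) = ∑ i : Lab J r, if i ∈ W then wR iC r i else 0 := by
      rw [Finset.sum_ite_mem, univ_inter]
    rw [e1, Fintype.sum_prod_type]
    refine sum_congr rfl fun j _ => ?_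
    rw [hc]
    dsimp only
    rw [card_filter, Nat.cast_sum, mul_sum]
    refine sum_congr rfl fun x _ => ?_
    by_cases h : (j, x) ∈ W <;> simp [h, wR, hω]
  have hJ : (Fintype.card J : ℝ) = ∑ _j : J, (1 : ℝ) := by
    rw [sum_const, card_univ, nsmul_eq_mul, mul_one]
  rw [hsum, hJ]
  have hwB : ∀ j, iC j = false → ω j = 1 / 2 := fun j hj => by rw [hω]; simp [hj]
  have hwC : ∀ j, iC j = true → ω j = 1 / (2 * 2 ^ r) := fun j hj => by rw [hω]; simp [hj]
  have h2r : (0 : ℝ) < 2 * 2 ^ r := by positivity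
  -- the sets which contain the fibres
  set TC : Finset (((Fin r → ZMod 2) × (Fin r → ZMod 2)) × Bool) := Df ×ˢ univ with hTC
  set TB : Finset (((Fin r → ZMod 2) × (Fin r → ZMod 2)) × Bool) := {0} ×ˢ univ with hTB
  have hTBc : TB.card = 2 := by
    rw [hTB, card_product, card_singleton, one_mul, card_univ, Fintype.card_bool]
  have hTCc : TC.card = 2 * Df.card := by
    rw [hTC, card_product, card_univ, Fintype.card_bool, mul_comm]
  have hxB : ∀ s ∈ U ∪ S, iC s.1 = false → s.2.1.2 = 0 := by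
    intro s hs h1
    by_contra h2
    rw [(hval s hs).2.1 h2] at h1
    exact absurd h1 (by decide)
  have hcB : ∀ j, iC j = false → c j ⊆ TB := by
    intro j hj x hx
    have h1 := (hcm j x).1 hx
    rw [hTB, mem_product, mem_singleton]
    refine ⟨hD0 x.1 (hWD _ h1) ?_, mem_univ _⟩
    exact hxB _ (hWH' _ h1) hj
  have hcC : ∀ j, c j ⊆ TC := by
    intro j x hx
    have h1 := (hcm j x).1 hx
    rw [hTC, mem_product, hDfm]
    exact ⟨hWD _ h1, mem_univ _⟩
  have hDcr : ((Df.card : ℕ) : ℝ) ≤ 2 ^ r := by exact_mod_cast hDc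
  have hle : ∀ j, ω j * ((c j).card : ℝ) ≤ 1 := by
    intro j
    cases hCj : iC j with
    | false =>
      rw [hwB j hCj]
      have h1 := card_le_card (hcB j hCj)
      rw [hTBc] at h1
      have : ((c j).card : ℝ) ≤ 2 := by exact_mod_cast h1
      linarith
    | true =>
      rw [hwC j hCj, one_div, inv_mul_le_iff₀ h2r, mul_one]
      have h1 := card_le_card (hcC j)
      rw [hTCc] at h1
      have : ((c j).card : ℝ) ≤ 2 * ((Df.card : ℕ) : ℝ) := by exact_mod_cast h1
      linarith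
  refine ⟨sum_le_sum fun j _ => hle j, ?_⟩
  rintro ⟨s, hs⟩
  have hsH : s ∈ U ∪ S := mem_union_right _ hs
  have hsU : s ∉ U := fun h => disjoint_left.1 hUS h hs
  have hsc : s.2 ∉ c s.1 := fun h => hsU (hWU _ ((hcm s.1 s.2).1 h))
  have hlt : ∀ T : Finset (((Fin r → ZMod 2) × (Fin r → ZMod 2)) × Bool), c s.1 ⊆ T → s.2 ∈ T →
      (c s.1).card < T.card := fun T h1 h2 => card_lt_card ⟨h1, fun h => hsc (h h2)⟩
  by_cases hfull : Df.card = 2 ^ r
  · -- then all vectors of the support are in `D`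
    have hsurj : ∀ x : Fin r → ZMod 2, ∃ t ∈ D, t.2 = x := by
      have h1 : Df.image (fun t => t.2) = univ := by
        apply eq_univ_of_card
        rw [card_image_of_injOn, hfull]
        · simp [ZMod.card]
        · intro t ht t' ht' h
          exact hinj t ((hDfm t).1 (mem_coe.1 ht)) t' ((hDfm t').1 (mem_coe.1 ht')) h
      intro x
      have h2 : x ∈ Df.image (fun t => t.2) := by rw [h1]; exact mem_univ _
      obtain ⟨t, ht, h3⟩ := mem_image.1 h2
      exact ⟨t, (hDfm t).1 ht, h3⟩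
    have hsD : s.2.1 ∈ D := by
      obtain ⟨t, ht, ht2⟩ := hsurj s.2.1.2
      have h1 : s.2.1.1 - t.1 = 0 := by
        rw [← dotProduct_eq_zero_iff]
        intro x
        obtain ⟨t', ht', ht2'⟩ := hsurj x
        have h2 := hDH t' ht' s hsH
        have h3 := hDD t' ht' t ht
        rw [fo_apply] at h2 h3
        rw [sub_dotProduct, ← ht2', dotProduct_comm s.2.1.1, dotProduct_comm t.1]
        rw [ht2] at h3
        have h4 : t'.2 ⬝ᵥ s.2.1.1 - t'.2 ⬝ᵥ t.1 =
          (t'.1 ⬝ᵥ s.2.1.2 + t'.2 ⬝ᵥ s.2.1.1) - (t'.1 ⬝ᵥ s.2.1.2 + t'.2 ⬝ᵥ t.1) := by ring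
        rw [h4, h2, h3, sub_zero]
      have h5 : s.2.1 = t := Prod.ext (sub_eq_zero.1 h1) ht2.symm
      rw [h5]
      exact ht
    refine sum_lt_sum (fun j _ => hle j) ⟨s.1, mem_univ _, ?_⟩
    cases hCj : iC s.1 with
    | false =>
      rw [hwB _ hCj]
      have h5 := hlt _ (hcB _ hCj) (by
        rw [hTB, mem_product, mem_singleton]
        exact ⟨hD0 _ hsD (hxB s hsH hCj), mem_univ _⟩)
      rw [hTBc] at h5
      have : ((c s.1).card : ℝ) < 2 := by exact_mod_cast h5
      linarith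
    | true =>
      rw [hwC _ hCj, one_div, inv_mul_lt_iff₀ h2r, mul_one]
      have h5 := hlt _ (hcC _) (by
        rw [hTC, mem_product, hDfm]
        exact ⟨hsD, mem_univ _⟩)
      rw [hTCc, hfull] at h5
      exact_mod_cast h5
  · have hlt1 : Df.card < 2 ^ r := lt_of_le_of_ne hDc hfull
    have h0D : (0 : (Fin r → ZMod 2) × (Fin r → ZMod 2)) ∈ Df := (hDfm 0).2 D.zero_mem
    have hpos : 1 ≤ Df.card := card_pos.2 ⟨0, h0D⟩
    have hr : r ≠ 0 := by
      rintro rfl
      rw [pow_zero] at hlt1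
      omega
    have hex : ∃ j, iC j = true := by
      have hy : (fun _ : Fin r => (1 : ZMod 2)) ≠ 0 := by
        intro h
        have h1 := congrFun h ⟨0, Nat.pos_of_ne_zero hr⟩
        exact one_ne_zero h1
      obtain ⟨i, hi, hi0⟩ := hspan _ hy
      refine ⟨i.1, (hval i hi).2.1 ?_⟩
      intro h
      rw [h, dotProduct_zero] at hi0
      exact hi0 rfl
    obtain ⟨j, hj⟩ := hex
    refine sum_lt_sum (fun j _ => hle j) ⟨j, mem_univ _, ?_⟩
    rw [hwC _ hj, one_div, inv_mul_lt_iff₀ h2r, mul_one]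
    have h1 := card_le_card (hcC j)
    rw [hTCc] at h1
    have h2 : (c j).card < 2 * 2 ^ r := by omega
    exact_mod_cast h2

end Pool.Agent.L7h19.IK
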