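import Mathlib
import Pool.Agent.L7h19.IT.Avg3
import Pool.Agent.L7h19.IK.Comb

/-!
# Project IK: the average of the power of the majorant
-/

set_option autoImplicit false
set_option linter.unusedSectionVars false

namespace Pool.Agent.L7h19.IK

open Finset Polynomial Pool.Agent.W262.RK Pool.Agent.L7h19.RP Pool.Agent.L7h19.IS Pool.Agent.W108.RK
open Pool.Agent.L7h19.IT
open Pool.Agent.H474R2.PG (rho)
open Pool.Agent.L7h19.RP.AT (gm hq BWg)

variable {J : Type} [Fintype J] [DecidableEq J] {z y : ℕ}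

lemma wR_pos (iC : J → Bool) (r : ℕ) (i : Lab J r) : 0 < wR iC r i ∧ wR iC r i ≤ 1 / 2 := by
  unfold wR
  have h1 : (1 : ℝ) ≤ 2 ^ r := one_le_pow₀ (by norm_num)
  split_ifs
  · refine ⟨by positivity, ?_⟩
    rw [div_le_div_iff₀ (by positivity) (by norm_num)]
    linarith
  · norm_num

theorem majR (hUp : StUp) (hBW : StBW) (hFr : StFree) (hEx : S_EXP5)
    (iB iC : J → Bool) (hBC : ∀ j, iB j = true ∨ iC j = true) (θ : ℕ → ℤ)
    (hθ : ∀ p, θ p = 1 ∨ θ p = -1) (τ : Bool) (r : ℕ) (f : J → ℤ[X]) (hf : ∀ j, Irreducible (f j))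
    (hd : ∀ j, 0 < (f j).natDegree) (c : ℕ) :
    ∃ z0 : ℕ, ∀ z, z0 ≤ z → ∃ C : ℝ, ∀ y, z < y →
      ∑ s ∈ Tup J z y, ((1 / 2) ^ (PW iB iC s).card * ∑ E ∈ (PW iB iC s).powerset,
        FR τ (fun p => eE E p * θ p) r (pP iB s) (pP iC s)) * ∏ j, gm (gaw (f j) 1 c) (s j) ≤
        C * (Real.log y) ^ (Fintype.card J) := by
  classical
  obtain ⟨z0, hz0⟩ := genM hUp hBW hFr f hf hd c (ι := Lab J r) Prod.fst (wR iC r)
    (wR_pos iC r) (fun _ => false) (LR τ r) (LR_self τ) (QR iB iC r) ((Fintype.card J : ℕ) : ℝ)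
    (Nat.cast_nonneg _) (fun U S hUS hU hQ => combR iB iC τ U S hUS hU hQ)
  refine ⟨z0 + c + 2, fun z hz => ?_⟩
  obtain ⟨C, hC⟩ := hz0 z (by omega)
  refine ⟨C, fun y hy => ?_⟩
  rw [hEx J iB iC f θ τ r c z y hBC hθ (by omega) (by omega)]
  refine (le_trans (le_of_eq ?_) (le_abs_self _)).trans ((hC y hy).trans (le_of_eq ?_))
  · refine sum_congr rfl fun d _ => ?_
    congr 1
    refine prod_congr rfl fun i _ => ?_
    congr 1
    funext p
    unfold sgw
    simp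
  · rw [Real.rpow_natCast]

lemma av_smul (P : Finset ℕ) (a : ℝ) (g : Finset ℕ → ℝ) : av P (fun E => a * g E) = a * av P g := by
  unfold av
  rw [← mul_sum]
  ring

/-- the function to be averaged -/
noncomputable def GRK (k : ℕ) (iB iC : J → Bool) (f : J → ℤ[X]) (s : J → ℕ) : ℝ :=
  ((Rs f s).card : ℝ) * AVK k iB iC s

lemma AVK_nonneg (k : ℕ) (iB iC : J → Bool) (s : J → ℕ) : 0 ≤ AVK k iB iC s := by
  unfold AVK
  exact mul_nonneg (by positivity) (sum_nonneg fun E _ => pow_nonneg (G3_nonneg _ _ _) _)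

lemma GRK_nonneg (k : ℕ) (iB iC : J → Bool) (f : J → ℤ[X]) (s : J → ℕ) : 0 ≤ GRK k iB iC f s :=
  mul_nonneg (Nat.cast_nonneg _) (AVK_nonneg _ _ _ _)

/-- growth -/
lemma GRK_sub (hAS : S_AVK) (k : ℕ) (iB iC : J → Bool) (hBC : ∀ j, iB j = true ∨ iC j = true)
    (f : J → ℤ[X]) {c : ℕ} (hz : 2 ≤ z)
    (hρ : ∀ p : ℕ, p.Prime → z < p → ∀ j, rho (f j) p ≤ c) {s e : J → ℕ}
    (hse : (fun j => s j * e j) ∈ Tup J z y) :
    GRK k iB iC f (fun j => s j * e j) ≤
      (16 ^ k * c : ℝ) ^ (∑ j, (e j).primeFactors.card) * GRK k iB iC f s := by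
  have h0 : ∀ j, s j * e j ≠ 0 := fun j => (sqf_of_mem hse j).ne_zero
  have hs : s ∈ Tup J z y := by
    rw [mem_Tup] at hse ⊢
    refine ⟨fun j => (Dvd.intro _ rfl).trans (hse.1 j), fun i j hij => ?_⟩
    exact ((hse.2 i j hij).coprime_dvd_left (Dvd.intro _ rfl)).coprime_dvd_right (Dvd.intro _ rfl)
  have he : e ∈ Tup J z y := by
    rw [mem_Tup] at hse ⊢
    refine ⟨fun j => (Dvd.intro_left _ rfl).trans (hse.1 j), fun i j hij => ?_⟩
    exact ((hse.2 i j hij).coprime_dvd_left (Dvd.intro_left _ rfl)).coprime_dvd_right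
      (Dvd.intro_left _ rfl)
  have h1 := hAS J iB iC k z y s e hBC hz hse
  have h2 : ((Rs f (fun j => s j * e j)).card : ℝ) ≤
      (c : ℝ) ^ (∑ j, (e j).primeFactors.card) * ((Rs f s).card : ℝ) := by
    rw [card_Rs f hse, card_Rs f hs, ← prod_pow_eq_pow_sum, ← prod_mul_distrib]
    refine prod_le_prod (fun j _ => prod_nonneg fun p _ => Nat.cast_nonneg _) fun j _ => ?_
    have hco : (s j).Coprime (e j) := Nat.coprime_of_squarefree_mul (sqf_of_mem hse j)
    rw [hco.primeFactors_mul, prod_union hco.disjoint_primeFactors, mul_comm]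
    refine mul_le_mul_of_nonneg_right ?_ (prod_nonneg fun p _ => Nat.cast_nonneg _)
    rw [← prod_const]
    refine prod_le_prod (fun p _ => Nat.cast_nonneg _) fun p hp => ?_
    have hpp := Nat.prime_of_mem_primeFactors hp
    have hzp : z < p := (dv_prime ((AT.mem_Tup'.1 he).1 j) hpp (Nat.dvd_of_mem_primeFactors hp)).1
    exact_mod_cast hρ p hpp hzp j
  unfold GRK
  calc _ ≤ ((c : ℝ) ^ (∑ j, (e j).primeFactors.card) * ((Rs f s).card : ℝ)) *
        ((16 ^ k) ^ (∑ j, (e j).primeFactors.card) * AVK k iB iC s) :=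
        mul_le_mul h2 h1 (AVK_nonneg _ _ _ _) (by positivity)
    _ = _ := by
        rw [mul_pow]
        ring

/-- **the average** -/
theorem avgK (hUp : StUp) (hBW : StBW) (hFr : StFree) (hEx : S_EXP5) (hLA : S_LA) (k : ℕ)
    (iB iC : J → Bool) (hBC : ∀ j, iB j = true ∨ iC j = true)
    (f : J → ℤ[X]) (hf : ∀ j, Irreducible (f j)) (hd : ∀ j, 0 < (f j).natDegree) (c : ℕ) :
    ∃ z0 : ℕ, ∀ z, z0 ≤ z → ∃ C : ℝ, ∀ y, z < y →
      ∑ s ∈ Tup J z y, GRK k iB iC f s * ∏ j, gw 1 c (s j) ≤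
        C * (Real.log y) ^ (Fintype.card J) := by
  have hj1 : ∀ p : ℕ, (fun p : ℕ => jacobiSym (-1) p) p = 1 ∨ (fun p : ℕ => jacobiSym (-1) p) p = -1 :=
    fun p => jacobiSym.eq_one_or_neg_one (by simp)
  have h11 : ∀ p : ℕ, (fun _ : ℕ => (1 : ℤ)) p = 1 ∨ (fun _ : ℕ => (1 : ℤ)) p = -1 :=
    fun _ => Or.inl rfl
  obtain ⟨za, ha⟩ := maj0 f hf hd c
  obtain ⟨zb, hb⟩ := majR hUp hBW hFr hEx iB iC hBC (fun _ => 1) h11 true (2 * k) f hf hd c
  obtain ⟨zc, hc⟩ := majR hUp hBW hFr hEx iB iC hBC (fun p => jacobiSym (-1) p) hj1 false (2 * k)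
    f hf hd c
  obtain ⟨zd, hd'⟩ := majR hUp hBW hFr hEx iC iB (fun j => (hBC j).symm)
    (fun p => jacobiSym (-1) p) hj1 true (2 * k) f hf hd c
  obtain ⟨ze, he⟩ := majR hUp hBW hFr hEx iC iB (fun j => (hBC j).symm) (fun _ => 1) h11 false
    (2 * k) f hf hd c
  refine ⟨za + zb + zc + zd + ze + (c + 3), fun z hz => ?_⟩
  obtain ⟨Ca, hCa⟩ := ha z (by omega)
  obtain ⟨Cb, hCb⟩ := hb z (by omega)
  obtain ⟨Cc, hCc⟩ := hc z (by omega)
  obtain ⟨Cd, hCd⟩ := hd' z (by omega)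
  obtain ⟨Ce, hCe⟩ := he z (by omega)
  set A : ℝ := 4 ^ ((2 * k) ^ 2 + 1) with hA
  have hA0 : 0 ≤ A := by positivity
  refine ⟨A * (Ca + Cb + Cc + Cd + Ce), fun y hy => ?_⟩
  have h1 := hCa y hy
  have h2 := hCb y hy
  have h3 := hCc y hy
  have h3' := hCd y hy
  have h3'' := hCe y hy
  set P : (J → ℕ) → ℝ := fun s => ∏ j, gm (gaw (f j) 1 c) (s j) with hP
  have h4 : ∀ s ∈ Tup J z y, GRK k iB iC f s * ∏ j, gw 1 c (s j) ≤
      A * (P s +
      ((1 / 2) ^ (PW iB iC s).card * ∑ E ∈ (PW iB iC s).powerset,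
        FR true (fun p => eE E p * (fun _ => 1 : ℕ → ℤ) p) (2 * k) (pP iB s) (pP iC s)) * P s +
      ((1 / 2) ^ (PW iB iC s).card * ∑ E ∈ (PW iB iC s).powerset,
        FR false (fun p => eE E p * (fun p => jacobiSym (-1) p : ℕ → ℤ) p) (2 * k)
          (pP iB s) (pP iC s)) * P s +
      ((1 / 2) ^ (PW iC iB s).card * ∑ E ∈ (PW iC iB s).powerset,
        FR true (fun p => eE E p * (fun p => jacobiSym (-1) p : ℕ → ℤ) p) (2 * k)
          (pP iC s) (pP iB s)) * P s +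
      ((1 / 2) ^ (PW iC iB s).card * ∑ E ∈ (PW iC iB s).powerset,
        FR false (fun p => eE E p * (fun _ => 1 : ℕ → ℤ) p) (2 * k) (pP iC s) (pP iB s)) *
          P s) := by
    intro s hs
    have e1 : GRK k iB iC f s * ∏ j, gw 1 c (s j) = AVK k iB iC s * P s := by
      rw [hP]
      unfold GRK
      rw [card_Rs f hs]
      simp_rw [gm_gaw]
      rw [prod_mul_distrib]
      ring
    have e2 : 0 ≤ P s := by
      rw [hP]
      refine prod_nonneg fun j _ => ?_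
      unfold gm
      refine prod_nonneg fun p hp => ?_
      have hpp := Nat.prime_of_mem_primeFactors hp
      have hzp := (dv_prime ((AT.mem_Tup'.1 hs).1 j) hpp (Nat.dvd_of_mem_primeFactors hp)).1
      unfold gaw
      have h1 : (c : ℝ) < p := by exact_mod_cast (by omega : c < p)
      have h2 : (0 : ℝ) < (p : ℝ) - c := by linarith
      positivity
    have hsq : ∀ Q : J → Bool, Squarefree (pP Q s) := fun Q =>
      (tup_sqf hs).squarefree_of_dvd (prod_dvd_prod_of_subset _ _ _ (filter_subset _ _))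
    have e3 : AVK k iB iC s ≤ A * (1 +
        av (PW iB iC s) (fun E => FR true (eE E) (2 * k) (pP iB s) (pP iC s)) +
        av (PW iB iC s) (fun E => FR false (eE' E) (2 * k) (pP iB s) (pP iC s)) +
        av (PW iB iC s) (fun E => FR true (eE' E) (2 * k) (pP iC s) (pP iB s)) +
        av (PW iB iC s) (fun E => FR false (eE E) (2 * k) (pP iC s) (pP iB s))) := by
      have e5 : AVK k iB iC s = av (PW iB iC s) (fun E => G3 E (pP iB s) (pP iC s) ^ k) := rfl
      rw [e5]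
      conv_rhs => rw [← av_one (PW iB iC s)]
      rw [← av_add, ← av_add, ← av_add, ← av_add, ← av_smul]
      exact av_mono fun E _ => (hLA k _ _ E (hsq iB) (hsq iC)).2
    rw [e1]
    have e6 : ∀ (τ : Bool) (m n : ℕ), (1 / 2 : ℝ) ^ (PW iB iC s).card *
        ∑ E ∈ (PW iB iC s).powerset, FR τ (fun p => eE E p * (fun _ => 1 : ℕ → ℤ) p) (2 * k) m n =
        av (PW iB iC s) (fun E => FR τ (eE E) (2 * k) m n) := by
      intro τ m n
      unfold av
      congr 1
      refine sum_congr rfl fun E _ => ?_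
      congr 1
      funext p
      simp
    have e7 : ∀ (τ : Bool) (m n : ℕ), (1 / 2 : ℝ) ^ (PW iB iC s).card *
        ∑ E ∈ (PW iB iC s).powerset,
          FR τ (fun p => eE E p * (fun p => jacobiSym (-1) p : ℕ → ℤ) p) (2 * k) m n =
        av (PW iB iC s) (fun E => FR τ (eE' E) (2 * k) m n) := fun τ m n => rfl
    rw [PW_swap iB iC s, e6, e7, e7, e6]
    calc _ ≤ A * (1 + av (PW iB iC s) (fun E => FR true (eE E) (2 * k) (pP iB s) (pP iC s)) +
        av (PW iB iC s) (fun E => FR false (eE' E) (2 * k) (pP iB s) (pP iC s)) +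
        av (PW iB iC s) (fun E => FR true (eE' E) (2 * k) (pP iC s) (pP iB s)) +
        av (PW iB iC s) (fun E => FR false (eE E) (2 * k) (pP iC s) (pP iB s))) * P s :=
          mul_le_mul_of_nonneg_right e3 e2
      _ = _ := by ring
  refine (sum_le_sum h4).trans ?_
  rw [← mul_sum, sum_add_distrib, sum_add_distrib, sum_add_distrib, sum_add_distrib, mul_assoc]
  refine mul_le_mul_of_nonneg_left ?_ hA0
  rw [add_mul, add_mul, add_mul, add_mul]
  linarith

end Pool.Agent.L7h19.IK
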