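import Mathlib
import Pool.Agent.L7h19.IT.All3
import Pool.Agent.L7h19.IK.Fin

/-!
# Project IK: assembly
-/

set_option autoImplicit false
set_option linter.unusedSectionVars false

namespace Pool.Agent.L7h19.IK

open Finset Polynomial Pool.Agent.W262.RK Pool.Agent.W307.RT Pool.Agent.L7h19.RP
open Pool.Agent.L7h19.IS Pool.Agent.L7h19.IT UniqueFactorizationMonoid

lemma pow_aux (x G : ℝ) (a b k c ℓ : ℕ) : (x ^ a * (x ^ b) ^ k * x ^ c * G) ^ ℓ =
    (x ^ ℓ) ^ a * ((x ^ ℓ) ^ b) ^ k * (x ^ ℓ) ^ c * G ^ ℓ := by ring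

open Classical in
/-- **the theorem** -/
theorem allK (hRK : S_RK3) (hEx : S_EXP5) (hLA : S_LA) (hAS : S_AVK)
    (hUp : StUp) (hBW : StBW) (hFr : StFree) (ℓ : ℕ)
    (a b : ℤ[X]) (hb : Squarefree (mq b)) (hcs : Squarefree (mq (a ^ 2 - 4 * b))) (ε : ℝ)
    (hε : 0 < ε) :
    ∃ C : ℝ, 0 ≤ C ∧ ∀ (X : ℕ) (u v : ℤ), 1 ≤ X → u.natAbs ≤ X → v.natAbs ≤ X →
      (X : ℝ) ^ ε ≤ (v : ℝ) - u →
      ∑ t ∈ (Icc u v).filter (fun t : ℤ => b.eval t * (a.eval t ^ 2 - 4 * b.eval t) ≠ 0),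
        ((2 : ℝ) ^ ((Module.finrank ℤ (EI (a.eval t) (b.eval t)).toAffine.Point : ℕ) -
          |((om (b.eval t) : ℕ) : ℝ) - ((om (a.eval t ^ 2 - 4 * b.eval t) : ℕ) : ℝ)| : ℝ)) ^ ℓ ≤
        C * ((v : ℝ) - u) := by
  set c : ℤ[X] := a ^ 2 - 4 * b with hc
  obtain ⟨β, hβ, hbeq⟩ := exists_fac hb
  obtain ⟨γ, hγ, hceq⟩ := exists_fac hcs
  set J : Type := {f : ℤ[X] // f ∈ SF b ∪ SF c} with hJ
  set F : J → ℤ[X] := fun j => j.1 with hF
  set iB : J → Bool := fun j => decide (j.1 ∈ SF b) with hiB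
  set iC : J → Bool := fun j => decide (j.1 ∈ SF c) with hiC
  have hcBt : ∀ j : J, iB j = true ↔ j.1 ∈ SF b := fun j => by rw [hiB]; simp
  have hcBf : ∀ j : J, iC j = true ↔ j.1 ∈ SF c := fun j => by rw [hiC]; simp
  have hBC : ∀ j : J, iB j = true ∨ iC j = true := fun j => by
    rw [hcBt, hcBf]
    exact mem_union.1 j.2
  have hirr : ∀ j, Irreducible (F j) := fun j => by
    rcases mem_union.1 j.2 with h1 | h1
    · exact (SF_irr h1).1
    · exact (SF_irr h1).1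
  have hdeg : ∀ j, 0 < (F j).natDegree := fun j => by
    rcases mem_union.1 j.2 with h1 | h1
    · exact (SF_irr h1).2.1
    · exact (SF_irr h1).2.1
  have hnd : ∀ j l, j ≠ l → ¬ F j ∣ F l := by
    intro j l hjl
    have hne : j.1 ≠ l.1 := fun h1 => hjl (Subtype.ext h1)
    rcases mem_union.1 j.2 with h1 | h1 <;> rcases mem_union.1 l.2 with h2 | h2 <;>
      exact SF_nd' h1 h2 hne
  -- products and sums over the types
  have hprodB : ∀ (M : Type) [CommMonoid M] (G : ℤ[X] → M),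
      ∏ j ∈ univ.filter (fun j : J => iB j = true), G j.1 = ∏ f ∈ SF b, G f := by
    intro M _ G
    refine prod_bij (fun j _ => j.1) (fun j hj => (hcBt j).1 (mem_filter.1 hj).2)
      (fun j _ l _ hjl => Subtype.ext hjl) (fun f hf => ?_) (fun _ _ => rfl)
    refine ⟨⟨f, mem_union_left _ hf⟩, ?_, rfl⟩
    rw [mem_filter]
    exact ⟨mem_univ _, (hcBt _).2 hf⟩
  have hprodC : ∀ (M : Type) [CommMonoid M] (G : ℤ[X] → M),
      ∏ j ∈ univ.filter (fun j : J => iC j = true), G j.1 = ∏ f ∈ SF c, G f := by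
    intro M _ G
    refine prod_bij (fun j _ => j.1) (fun j hj => (hcBf j).1 (mem_filter.1 hj).2)
      (fun j _ l _ hjl => Subtype.ext hjl) (fun f hf => ?_) (fun _ _ => rfl)
    refine ⟨⟨f, mem_union_right _ hf⟩, ?_, rfl⟩
    rw [mem_filter]
    exact ⟨mem_univ _, (hcBf _).2 hf⟩
  have hevb : ∀ t : ℤ, b.eval t = β * ∏ j ∈ univ.filter (fun j : J => iB j = true), vf F t j := by
    intro t
    have h1 := hprodB ℤ (fun f => f.eval t)
    have h2 : ∏ j ∈ univ.filter (fun j : J => iB j = true), vf F t j = ∏ f ∈ SF b, f.eval t := h1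
    rw [h2]
    conv_lhs => rw [hbeq]
    rw [eval_mul, eval_C, eval_prod]
  have hevc : ∀ t : ℤ, c.eval t = γ * ∏ j ∈ univ.filter (fun j : J => iC j = true), vf F t j := by
    intro t
    have h1 := hprodC ℤ (fun f => f.eval t)
    have h2 : ∏ j ∈ univ.filter (fun j : J => iC j = true), vf F t j = ∏ f ∈ SF c, f.eval t := h1
    rw [h2]
    conv_lhs => rw [hceq]
    rw [eval_mul, eval_C, eval_prod]
  have hcev : ∀ t : ℤ, a.eval t ^ 2 - 4 * b.eval t = c.eval t := by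
    intro t
    rw [hc]
    simp
  have hne : ∀ t : ℤ, b.eval t * (a.eval t ^ 2 - 4 * b.eval t) ≠ 0 ↔ ∀ j, vf F t j ≠ 0 := by
    intro t
    rw [hcev, mul_ne_zero_iff]
    constructor
    · rintro ⟨h1, h2⟩ j
      rw [hevb] at h1
      rw [hevc] at h2
      rcases hBC j with hj | hj
      · exact prod_ne_zero_iff.1 (mul_ne_zero_iff.1 h1).2 j (mem_filter.2 ⟨mem_univ _, hj⟩)
      · exact prod_ne_zero_iff.1 (mul_ne_zero_iff.1 h2).2 j (mem_filter.2 ⟨mem_univ _, hj⟩)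
    · intro h1
      rw [hevb, hevc]
      exact ⟨mul_ne_zero hβ (prod_ne_zero_iff.2 fun j _ => h1 j),
        mul_ne_zero hγ (prod_ne_zero_iff.2 fun j _ => h1 j)⟩
  set E : ℤ → ℝ := fun t => (Module.finrank ℤ (EI (a.eval t) (b.eval t)).toAffine.Point : ℕ) -
          |((om (b.eval t) : ℕ) : ℝ) - ((om (a.eval t ^ 2 - 4 * b.eval t) : ℕ) : ℝ)| with hE
  set R : ℤ → ℝ := fun t => if ∀ j, vf F t j ≠ 0 then ((2 : ℝ) ^ (E t)) ^ ℓ else 0 with hRd
  have hR0 : ∀ t, 0 ≤ R t := fun t => by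
    rw [hRd]
    dsimp only
    split_ifs
    · exact pow_nonneg (Real.rpow_nonneg (by norm_num) _) _
    · exact le_rfl
  have hRB : RBK ℓ iB iC β F R := by
    refine ⟨β.natAbs + γ.natAbs + 2, fun z hz t y X k D E' hG hx hX hy hk hE' => ?_⟩
    have h1 : R t = ((2 : ℝ) ^ (E t)) ^ ℓ := if_pos hG.1
    rw [h1]
    have hp : ∀ p : ℕ, p.Prime → z < p → ¬ (p : ℤ) ∣ β ∧ ¬ (p : ℤ) ∣ γ := by
      intro p _ hzp
      constructor
      · intro h2
        have := Nat.le_of_dvd (Int.natAbs_pos.2 hβ) (Int.natCast_dvd.1 h2)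
        omega
      · intro h2
        have := Nat.le_of_dvd (Int.natAbs_pos.2 hγ) (Int.natCast_dvd.1 h2)
        omega
    have h3 := hRK J iB iC (a.eval t) β γ (vf F t) z y X k D E' hBC (by omega) hG hβ hγ hp
      (by rw [← hevb, ← hevc, hcev]) hx hX hy hk hE'
    rw [← hevb, ← hevc] at h3
    have h5 : (2 : ℝ) ^ (E t) ≤ 16 ^ (z + 2) * (16 ^ (D * Fintype.card J)) ^ k *
        16 ^ (∑ j, (S2 z y (vf F t) j).primeFactors.card) *
        G3 E' (pP iB (S1 z y (vf F t))) (pP iC (S1 z y (vf F t))) := by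
      rw [hE]
      dsimp only
      rw [hcev]
      exact h3
    have h6 := pow_le_pow_left₀ (Real.rpow_nonneg (by norm_num) _) h5 ℓ
    refine h6.trans (le_of_eq ?_)
    exact pow_aux _ _ _ _ _ _ _
  have hMaj := fun c' : ℕ => avgK hUp hBW hFr hEx hLA ℓ iB iC hBC F hirr hdeg c'
  obtain ⟨C1, hC10, hC1⟩ := finK hAS ℓ iB iC hBC β hβ F R hirr hdeg hnd hR0 hRB hMaj ε hε
  have hfil : ∀ u v : ℤ, (Icc u v).filter
      (fun t : ℤ => b.eval t * (a.eval t ^ 2 - 4 * b.eval t) ≠ 0) =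
      (Icc u v).filter (fun t : ℤ => ∀ j, vf F t j ≠ 0) := fun u v =>
    filter_congr fun t _ => hne t
  have hsum1 : ∀ u v : ℤ, ∑ t ∈ (Icc u v).filter
      (fun t : ℤ => b.eval t * (a.eval t ^ 2 - 4 * b.eval t) ≠ 0), ((2 : ℝ) ^ (E t)) ^ ℓ =
      ∑ t ∈ (Icc u v).filter (fun t : ℤ => ∀ j, vf F t j ≠ 0), R t := by
    intro u v
    rw [hfil]
    refine sum_congr rfl fun t ht => ?_
    exact (if_pos (mem_filter.1 ht).2).symm
  refine ⟨C1, hC10, fun X u v hX hu hv huv => ?_⟩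
  have h1 := hC1 X u v hX hu hv huv
  rw [← hsum1] at h1
  exact h1

end Pool.Agent.L7h19.IK
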